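import Pool.Agent.Lib.MP_b5021c_nt.IfaceK1

/-!
# MP_b5021c_nt, module BUO

Partial fractions and Parseval give: `|Y| = |Q|` on the circle implies `BU`.
-/

namespace Pool.Agent.MP_b5021c_nt.H78

open Polynomial Filter Topology Pool.Agent.MP_b5021c_nt

/-- A polynomial with `OneZero` has no zeros on the unit circle. -/
theorem pv_ne_zero {Q : ℤ[X]} {θ : ℝ} (hQ : OneZero Q θ) {z : ℂ} (hz : ‖z‖ = 1) :
    pv Q z ≠ 0 := by
  obtain ⟨h1, -, g, hg, hg0⟩ := hQ
  have h2 : pv Q z = (1 - (θ : ℂ) * z) * g.eval z := by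
    have h3 := congrArg (Polynomial.eval z) hg
    rw [Polynomial.eval_map, Polynomial.eval_mul, Polynomial.eval_sub, Polynomial.eval_one,
      Polynomial.eval_mul, Polynomial.eval_C, Polynomial.eval_X] at h3
    rw [← h3]
    rfl
  rw [h2]
  refine mul_ne_zero ?_ (hg0 z hz.le)
  intro h
  have h4 : (θ : ℂ) * z = 1 := (sub_eq_zero.mp h).symm
  have h5 : ‖(θ : ℂ) * z‖ = 1 := by rw [h4, norm_one]
  rw [norm_mul, hz, mul_one, Complex.norm_real, Real.norm_eq_abs, abs_of_pos (by linarith)] at h5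
  linarith

theorem summable_sq_of_abs {h : ℕ → ℝ} (hs : Summable (fun j => |h j|)) :
    Summable (fun j => h j ^ 2) := by
  refine Summable.of_nonneg_of_le (fun j => sq_nonneg _) (fun j => ?_)
    (hs.mul_left (∑' i, |h i|))
  have h1 : |h j| ≤ ∑' i, |h i| := hs.le_tsum j (fun i _ => abs_nonneg _)
  rw [← sq_abs, sq]
  exact mul_le_mul_of_nonneg_right h1 (abs_nonneg _)

/-- BUO. -/
theorem buo (hDec : DecS) (hPar : ParS) : BuoS := by
  intro Q Y θ a hQ ha hYQ
  obtain ⟨c, h, h1, h2, h3⟩ := hDec Q Y θ a hQ ha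
  refine ⟨c, h, hQ.1, h1, summable_sq_of_abs h2, ?_⟩
  rw [← hPar c θ h hQ.1 h2]
  have h4 : ∀ x : ℝ, ‖(c : ℂ) / (1 - θ * Complex.exp (x * Complex.I)) +
      ∑' j, (h j : ℂ) * Complex.exp (x * Complex.I) ^ j‖ ^ 2 = 1 := by
    intro x
    have hz : ‖Complex.exp (x * Complex.I)‖ = 1 := Complex.norm_exp_ofReal_mul_I x
    have h5 := hYQ _ hz
    rw [h3 _ hz, norm_mul] at h5
    have h6 : ‖pv Q (Complex.exp (x * Complex.I))‖ ≠ 0 := norm_ne_zero_iff.mpr (pv_ne_zero hQ hz)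
    have h7 := mul_left_cancel₀ h6 (h5.trans (mul_one _).symm)
    rw [h7, one_pow]
  simp only [h4, intervalIntegral.integral_const, sub_zero, smul_eq_mul, mul_one]
  exact inv_mul_cancel₀ (by positivity)

end Pool.Agent.MP_b5021c_nt.H78
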